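import Mathlib
import Pool.Agent.W988.WD.Defs

/-!
WD-CPT: bounded families of operators have weak operator limits along ultrafilters.
-/

set_option autoImplicit false
open scoped InnerProductSpace Topology
open Filter

namespace Pool.Agent.W196.WD

open Pool.Agent.W988.WD

theorem lim_exists {ι : Type} (U : Ultrafilter ι) (a : ι → ℂ) (C : ℝ) (h : ∀ i, ‖a i‖ ≤ C) :
    ∃ c : ℂ, Tendsto a (U : Filter ι) (𝓝 c) ∧ ‖c‖ ≤ C := by
  have hK : IsCompact (Metric.closedBall (0 : ℂ) C) := isCompact_closedBall 0 C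
  obtain ⟨c, hc, hc'⟩ := hK.ultrafilter_le_nhds' (U.map a) (by
    rw [Ultrafilter.mem_map]
    apply Filter.Eventually.of_forall (f := (U : Filter ι))
    intro i
    simpa using h i)
  exact ⟨c, hc', by simpa using hc⟩

theorem exists_wlim {H : Type} [NormedAddCommGroup H] [InnerProductSpace ℂ H] [CompleteSpace H]
    {ι : Type} (U : Ultrafilter ι) (z : ι → (H →L[ℂ] H)) (R : ℝ) (hz : ∀ i, ‖z i‖ ≤ R) :
    ∃ w : H →L[ℂ] H, ‖w‖ ≤ R ∧ WLim (U : Filter ι) z w := by
  have hR : 0 ≤ R := by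
    obtain ⟨i, -⟩ := U.nonempty_of_mem (Filter.univ_mem (f := (U : Filter ι)))
    exact (norm_nonneg _).trans (hz i)
  have hex : ∀ v w : H, ∃ c : ℂ, Tendsto (fun i => ⟪z i v, w⟫_ℂ) (U : Filter ι) (𝓝 c) ∧
      ‖c‖ ≤ R * ‖v‖ * ‖w‖ := fun v w => lim_exists U _ _ (fun i =>
        (norm_inner_le_norm _ _).trans (mul_le_mul_of_nonneg_right
          (((z i).le_opNorm v).trans (mul_le_mul_of_nonneg_right (hz i) (norm_nonneg _)))
          (norm_nonneg _)))
  choose B hB hBn using hex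
  let L : H →ₗ⋆[ℂ] H →ₗ[ℂ] ℂ := LinearMap.mk₂'ₛₗ (starRingEnd ℂ) (RingHom.id ℂ) B
    (fun m₁ m₂ n => by
      refine tendsto_nhds_unique (hB (m₁ + m₂) n) ?_
      refine ((hB m₁ n).add (hB m₂ n)).congr fun i => ?_
      rw [map_add, inner_add_left])
    (fun c m n => by
      refine tendsto_nhds_unique (hB (c • m) n) ?_
      refine ((hB m n).const_mul ((starRingEnd ℂ) c)).congr fun i => ?_
      rw [map_smul, inner_smul_left])
    (fun m n₁ n₂ => by
      refine tendsto_nhds_unique (hB m (n₁ + n₂)) ?_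
      refine ((hB m n₁).add (hB m n₂)).congr fun i => ?_
      rw [inner_add_right])
    (fun c m n => by
      refine tendsto_nhds_unique (hB m (c • n)) ?_
      refine ((hB m n).const_mul c).congr fun i => ?_
      rw [inner_smul_right])
  let L' : H →L⋆[ℂ] H →L[ℂ] ℂ := L.mkContinuous₂ R (fun v w => hBn v w)
  let w : H →L[ℂ] H := InnerProductSpace.continuousLinearMapOfBilin L'
  have hw : ∀ ξ η : H, ⟪w ξ, η⟫_ℂ = B ξ η := fun ξ η =>
    InnerProductSpace.continuousLinearMapOfBilin_apply L' ξ η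
  refine ⟨w, ?_, ?_⟩
  · refine w.opNorm_le_bound hR fun v => ?_
    by_cases h0 : ‖w v‖ = 0
    · rw [h0]; positivity
    · have h1 : ‖w v‖ * ‖w v‖ ≤ R * ‖v‖ * ‖w v‖ := by
        have h2 := hBn v (w v)
        rw [← hw] at h2
        rw [← inner_self_eq_norm_mul_norm (𝕜 := ℂ) (w v)]
        exact (Complex.re_le_norm _).trans h2
      exact le_of_mul_le_mul_right h1 (lt_of_le_of_ne (norm_nonneg _) (Ne.symm h0))
  · intro ξ η
    have h1 := (hB ξ η)
    rw [← hw] at h1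
    have h2 := (Complex.continuous_conj.tendsto _).comp h1
    rw [inner_conj_symm] at h2
    refine h2.congr fun i => ?_
    exact inner_conj_symm _ _

theorem wlim_mem {H : Type} [NormedAddCommGroup H] [InnerProductSpace ℂ H] [CompleteSpace H]
    {ι : Type} (U : Ultrafilter ι) (z : ι → (H →L[ℂ] H)) (w : H →L[ℂ] H)
    (hw : WLim (U : Filter ι) z w) (M : VonNeumannAlgebra H) (hz : ∀ i, z i ∈ M) : w ∈ M := by
  rw [← M.commutant_commutant, VonNeumannAlgebra.mem_commutant_iff]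
  intro g hg
  rw [VonNeumannAlgebra.mem_commutant_iff] at hg
  ext ξ
  refine ext_inner_left ℂ fun η => ?_
  have h1 : Tendsto (fun i => ⟪(ContinuousLinearMap.adjoint g) η, z i ξ⟫_ℂ) (U : Filter ι)
    (𝓝 ⟪(ContinuousLinearMap.adjoint g) η, w ξ⟫_ℂ) := hw ξ _
  have h2 : Tendsto (fun i => ⟪η, z i (g ξ)⟫_ℂ) (U : Filter ι) (𝓝 ⟪η, w (g ξ)⟫_ℂ) := hw (g ξ) η
  have h3 : (fun i => ⟪(ContinuousLinearMap.adjoint g) η, z i ξ⟫_ℂ) =
      fun i => ⟪η, z i (g ξ)⟫_ℂ := by
    funext i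
    rw [ContinuousLinearMap.adjoint_inner_left]
    have h5 : z i (g ξ) = g (z i ξ) := DFunLike.congr_fun (hg (z i) (hz i)) ξ
    rw [h5]
  rw [h3] at h1
  have h4 := tendsto_nhds_unique h1 h2
  rw [ContinuousLinearMap.adjoint_inner_left] at h4
  exact h4

theorem p_CPT : S_CPT := fun H _ _ _ ι U z =>
  ⟨fun R hz => exists_wlim U z R hz, fun w hw M hz => wlim_mem U z w hw M hz⟩

end Pool.Agent.W196.WD
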